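import Pool.Agent.N783.CF.Stm

/-!
# Project CF: a large discriminant is not a unit (leaf CF/NUN, helper692)
-/

set_option autoImplicit false

open Polynomial NumberField
open scoped Classical

namespace Pool.Agent.N692.CF

open Pool.Agent.N783.CF
open Pool.Agent.N783.PF (dsc fF)

theorem t_NUN : S_NUN := by
  intro g F _ _ hg δ hδ
  obtain ⟨B₁, hB₁⟩ := exists_nat_gt (1 / δ)
  refine ⟨B₁ + 1, fun B hB f hBig _ _ _ => ?_⟩
  have hB1 : (1 : ℝ) ≤ B := by exact_mod_cast (by omega : 1 ≤ B)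
  have hB2 : (B₁ : ℝ) ≤ B := by exact_mod_cast (by omega : B₁ ≤ B)
  have hk : 2 * g * (2 * g + 1) ≠ 0 := by
    have h1 : 0 < 2 * g * (2 * g + 1) := by positivity
    exact h1.ne'
  have h1 : 1 < δ * (B : ℝ) ^ (2 * g * (2 * g + 1)) := by
    have h2 : (B : ℝ) ≤ (B : ℝ) ^ (2 * g * (2 * g + 1)) := le_self_pow₀ hB1 hk
    have h3 : 1 < δ * B₁ := by
      rw [div_lt_iff₀ hδ] at hB₁
      linarith [mul_comm (B₁ : ℝ) δ]
    have h4 : δ * (B₁ : ℝ) ≤ δ * B := mul_le_mul_of_nonneg_left hB2 hδ.le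
    have h5 : δ * (B : ℝ) ≤ δ * (B : ℝ) ^ (2 * g * (2 * g + 1)) := mul_le_mul_of_nonneg_left h2 hδ.le
    linarith
  have hall : ∀ σ : F →+* ℂ, 1 < ‖σ ((dsc g f : 𝓞 F) : F)‖ := fun σ => h1.trans_le (hBig σ)
  obtain ⟨σ₀⟩ : Nonempty (F →+* ℂ) := inferInstance
  have hD0 : dsc g f ≠ 0 := by
    intro h0
    have h2 := hall σ₀
    rw [h0] at h2
    simp at h2
    linarith
  have hnu : ¬ IsUnit (dsc g f) := by
    intro hu
    rw [NumberField.isUnit_iff_norm] at hu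
    have h3 := Algebra.norm_eq_prod_embeddings ℚ ℂ ((dsc g f : 𝓞 F) : F)
    have h4 : ‖algebraMap ℚ ℂ (Algebra.norm ℚ ((dsc g f : 𝓞 F) : F))‖ = 1 := by
      rw [RingOfIntegers.coe_norm] at hu
      rw [eq_ratCast, Complex.norm_ratCast]
      exact_mod_cast hu
    rw [h3, norm_prod] at h4
    have h5 : 1 < ∏ σ : F →ₐ[ℚ] ℂ, ‖σ ((dsc g f : 𝓞 F) : F)‖ := by
      have hne : (Finset.univ : Finset (F →ₐ[ℚ] ℂ)).Nonempty := ⟨σ₀.toRatAlgHom, Finset.mem_univ _⟩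
      calc (1 : ℝ) = ∏ _σ : F →ₐ[ℚ] ℂ, (1 : ℝ) := by rw [Finset.prod_const_one]
        _ < ∏ σ : F →ₐ[ℚ] ℂ, ‖σ ((dsc g f : 𝓞 F) : F)‖ :=
          Finset.prod_lt_prod_of_nonempty (fun _ _ => one_pos) (fun σ _ => hall σ.toRingHom) hne
    linarith
  obtain ⟨M, hM, hDM⟩ := exists_max_ideal_of_mem_nonunits hnu
  refine ⟨M, hM.isPrime, ?_, hDM⟩
  rintro rfl
  exact hD0 (by simpa using hDM)

end Pool.Agent.N692.CF
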